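import Mathlib
import Pool.Agent.Helper550.RadC
set_option autoImplicit false
open scoped ZeroAtInfty Topology
open MeasureTheory Filter Set

namespace Pool.Agent.Results.MP_b7f1cf_an.NilpotentsNotDense
open Pool.Agent.Helper550

universe u

section convolution
variable {G : Type u} [AddCommGroup G] [TopologicalSpace G] [IsTopologicalAddGroup G] [T2Space G]
    [LocallyCompactSpace G]

/-- The translate `y ↦ f (x + y)` of a function `f` in `C₀(G)`. -/
noncomputable def shift (x : G) (f : C₀(G, ℂ)) : C₀(G, ℂ) :=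
  f.comp (Homeomorph.toCocompactMap (Homeomorph.addLeft x))

theorem shift_continuous (ν : StrongDual ℂ C₀(G, ℂ)) (f : C₀(G, ℂ)) : Continuous fun x => ν (shift x f) :=
  (map_continuous ν).comp (Rad.tr_cont f)

theorem shift_tendsto (ν : StrongDual ℂ C₀(G, ℂ)) (f : C₀(G, ℂ)) :
    Tendsto (fun x => ν (shift x f)) (cocompact G) (𝓝 0) := Rad.cv_zero ν f

/-- For a measure `ν` (an element of the dual of `C₀(G)`) and `f` in `C₀(G)`, the function
`x ↦ ∫ f (x + y) dν(y)`, which lies in `C₀(G)` again. -/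
noncomputable def shiftInt (ν : StrongDual ℂ C₀(G, ℂ)) (f : C₀(G, ℂ)) : C₀(G, ℂ) where
  toFun x := ν (shift x f)
  continuous_toFun := shift_continuous ν f
  zero_at_infty' := shift_tendsto ν f

theorem shiftInt_add (ν : StrongDual ℂ C₀(G, ℂ)) (f g : C₀(G, ℂ)) :
    shiftInt ν (f + g) = shiftInt ν f + shiftInt ν g := Rad.cv_add ν f g

theorem shiftInt_smul (ν : StrongDual ℂ C₀(G, ℂ)) (c : ℂ) (f : C₀(G, ℂ)) :
    shiftInt ν (c • f) = c • shiftInt ν f := Rad.cv_smul ν c f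

theorem shiftInt_norm (ν : StrongDual ℂ C₀(G, ℂ)) (f : C₀(G, ℂ)) : ‖shiftInt ν f‖ ≤ ‖ν‖ * ‖f‖ := Rad.cv_norm ν f

/-- Convolution: `(μ * ν)(f) = ∫ ∫ f (x + y) dν(y) dμ(x)`. -/
noncomputable def convolve (μ ν : StrongDual ℂ C₀(G, ℂ)) : StrongDual ℂ C₀(G, ℂ) :=
  LinearMap.mkContinuous
    { toFun := fun f => μ (shiftInt ν f)
      map_add' := fun f g => by rw [shiftInt_add, map_add]
      map_smul' := fun c f => by rw [shiftInt_smul, map_smul]; rfl }
    (‖μ‖ * ‖ν‖) (fun f => by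
      rw [mul_assoc]
      exact (μ.le_opNorm _).trans (mul_le_mul_of_nonneg_left (shiftInt_norm ν f) (norm_nonneg _)))

/-- Convolution powers: `cpow μ n` is the `(n + 1)`-fold convolution product of `μ` with itself. -/
noncomputable def cpow (μ : StrongDual ℂ C₀(G, ℂ)) : ℕ → StrongDual ℂ C₀(G, ℂ)
  | 0 => μ
  | n + 1 => convolve (cpow μ n) μ

end convolution

section radical
variable (G : Type u) [AddCommGroup G] [TopologicalSpace G] [IsTopologicalAddGroup G] [T2Space G]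
    [LocallyCompactSpace G] [MeasurableSpace G] [BorelSpace G]

/-- The algebra `L¹(G)` inside `M(G)`: the measures `h · Haar` with `h` integrable. -/
def L1 : Set (StrongDual ℂ C₀(G, ℂ)) :=
  {μ | ∃ h : G → ℂ, Integrable h (Measure.addHaar : Measure G) ∧
    ∀ g : C₀(G, ℂ), μ g = ∫ x, h x * g x ∂(Measure.addHaar : Measure G)}

/-- `Rad L¹(G)`: the measures annihilated by every nonzero multiplicative linear functional on `M(G)`
that vanishes on `L¹(G)`. -/
def RadL1 : Set (StrongDual ℂ C₀(G, ℂ)) :=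
  {μ | ∀ φ : StrongDual ℂ C₀(G, ℂ) →ₗ[ℂ] ℂ, φ ≠ 0 →
    (∀ α β : StrongDual ℂ C₀(G, ℂ), φ (convolve α β) = φ α * φ β) → (∀ ξ ∈ L1 G, φ ξ = 0) → φ μ = 0}

/-- The measures with some convolution power in `L¹(G)`. -/
def NilL1 : Set (StrongDual ℂ C₀(G, ℂ)) := {μ | ∃ n : ℕ, cpow μ n ∈ L1 G}

end radical

section bridge
variable {G : Type u} [AddCommGroup G] [TopologicalSpace G] [IsTopologicalAddGroup G]
    [T2Space G] [LocallyCompactSpace G]

/-- Sanity check: point masses multiply like the group. -/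
theorem point_masses (x y : G) (a b c : StrongDual ℂ C₀(G, ℂ)) (ha : ∀ f, a f = f x) (hb : ∀ f, b f = f y)
    (hc : ∀ f, c f = f (x + y)) : convolve a b = c := by
  ext f
  change a (shiftInt b f) = c f
  rw [ha, hc]
  change b (shift x f) = _
  rw [hb]
  rfl

theorem cpow_eq (μ : Rad.Meas G) (n : ℕ) : (cpow μ n : Rad.Meas G) = μ ^ (n + 1) := by
  induction n with
  | zero => rw [zero_add, pow_one]; rfl
  | succ n ih =>
    rw [pow_succ, ← ih]
    rfl

variable [MeasurableSpace G] [BorelSpace G]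

theorem L1_sub {μ : Rad.Meas G} (h : μ ∈ L1 G) : μ ∈ Rad.L1c G := by
  obtain ⟨k, hk, hk2⟩ := h
  have : μ = Rad.den k := by
    ext g
    rw [Rad.den_apply hk]
    exact hk2 g
  rw [this]; exact Rad.den_mem' hk

theorem aux (hnd : NeBot (𝓝[≠] (0 : G))) : ∃ μ : Rad.Meas G, μ ∈ RadL1 G ∧
    ∀ ν : Rad.Meas G, ν ∈ NilL1 G → 1 / 50 ≤ ‖μ - ν‖ := by
  obtain ⟨u0, μ, hu0, hpos, hin, hn, hU, hL⟩ := Rad.main_data (G := G)
  refine ⟨μ, ?_, ?_⟩
  · intro φ1 hne hmul hφ1
    obtain ⟨φ0, hφ0⟩ : ∃ φ0 : Rad.Meas G →ₗ[ℂ] ℂ, ∀ α, φ0 α = φ1 α := ⟨φ1, fun α => rfl⟩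
    have hmul0 : ∀ α β : Rad.Meas G, φ0 (α * β) = φ0 α * φ0 β := by
      intro α β
      rw [hφ0, hφ0, hφ0]; exact hmul α β
    have h1 : φ0 1 = 1 := by
      by_contra h1
      apply hne
      refine LinearMap.ext fun (ν : Rad.Meas G) => ?_
      have h2 := hmul0 1 ν
      rw [one_mul] at h2
      have h4 : (φ0 1 - 1) * φ0 ν = 0 := by rw [sub_mul, one_mul, ← h2, sub_self]
      rcases mul_eq_zero.1 h4 with h5 | h5
      · exact absurd (sub_eq_zero.1 h5) h1
      · rw [hφ0] at h5; exact h5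
    have hφ : ∀ ξ : Rad.Meas G, ξ ∈ L1 G → (AlgHom.ofLinearMap φ0 h1 hmul0 : Rad.Meas G →ₐ[ℂ] ℂ) ξ = 0 := by
      intro ξ hξ
      change φ0 ξ = 0
      rw [hφ0]; exact hφ1 ξ hξ
    rw [← hφ0]
    change (AlgHom.ofLinearMap φ0 h1 hmul0 : Rad.Meas G →ₐ[ℂ] ℂ) μ = 0
    generalize (AlgHom.ofLinearMap φ0 h1 hmul0 : Rad.Meas G →ₐ[ℂ] ℂ) = φ at hφ ⊢
    apply Rad.final_hom hin hU
    intro ξ hξ
    refine Rad.L1c_induction (P := fun ξ => φ ξ = 0) ?_ ?_ ?_ ?_ ?_ hξ
    · intro f hf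
      exact hφ _ ⟨f, Rad.cs_int hf, fun g => Rad.den_apply (Rad.cs_int hf) g⟩
    · exact map_zero φ
    · intro μ ν h1 h2; rw [map_add, h1, h2, add_zero]
    · intro c μ h; rw [map_smul, h, smul_zero]
    · have hc : Continuous φ := (AlgHom.toContinuousLinearMap φ).continuous
      exact isClosed_eq hc continuous_const
  · rintro ν ⟨n, hν⟩
    have hν2 : (cpow ν n : Rad.Meas G) ∈ L1 G := hν
    rw [cpow_eq] at hν2
    exact Rad.final_nil hin hn hL (Nat.succ_le_succ (Nat.zero_le n)) (L1_sub hν2)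

end bridge

/-- For every non-discrete locally compact abelian group `G` there is a measure in `Rad L¹(G)` which has
positive distance, in total variation, from the set of measures that are nilpotent modulo `L¹(G)`. -/
theorem result (G : Type u) [AddCommGroup G] [TopologicalSpace G] [IsTopologicalAddGroup G] [T2Space G]
    [LocallyCompactSpace G] [MeasurableSpace G] [BorelSpace G] (h : ¬ DiscreteTopology G) :
    ∃ μ ∈ RadL1 G, ∃ ε : ℝ, 0 < ε ∧ ∀ ν ∈ NilL1 G, ε ≤ ‖μ - ν‖ := by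
  have hnd : NeBot (𝓝[≠] (0 : G)) := by
    rw [neBot_iff]
    intro hb
    apply h
    apply discreteTopology_of_isOpen_singleton_zero
    rw [isOpen_singleton_iff_punctured_nhds]
    exact hb
  obtain ⟨μ, h1, h2⟩ := aux hnd
  exact ⟨μ, h1, 1 / 50, by norm_num, fun ν hν => h2 ν hν⟩

end Pool.Agent.Results.MP_b7f1cf_an.NilpotentsNotDense
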